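import Pool.Agent.Lib.MP_43cf21_an.Main

set_option autoImplicit false

namespace Pool.Agent.Results.MP_43cf21_an.NoIsometry

open Pool.Agent.Lib.MP_43cf21_an

/-- No isometry on `X` has the Bhatia-Semrl property if `X` is not reflexive, or has an
infinite-dimensional complemented subspace with the compact approximation property, or carries a
non-compact operator that is a limit of compact operators uniformly on compact sets. -/
theorem result (X Y : Type*) [NormedAddCommGroup X] [NormedSpace ℝ X] [CompleteSpace X]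
    [NormedAddCommGroup Y] [NormedSpace ℝ Y] [CompleteSpace Y]
    (h : ¬ Function.Surjective (NormedSpace.inclusionInDoubleDual ℝ X) ∨
      (∃ Z : Submodule ℝ X, Z.ClosedComplemented ∧ ¬ FiniteDimensional ℝ Z ∧
        CompactApprox (ContinuousLinearMap.id ℝ Z)) ∨
      ∃ A : X →L[ℝ] X, ¬ IsCompactOperator A ∧ CompactApprox A)
    (T : X →L[ℝ] Y) (hT : ∀ x, ‖T x‖ = ‖x‖) : ¬ BhatiaSemrl T := by
  intro hBS
  have hA := att_of_BS T hT hBS
  rcases h with h | ⟨Z, ⟨P, hP⟩, hZ, hZ'⟩ | ⟨A, h, h'⟩
  · exact h (refl_of_att hA)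
  · have h1 : CompactApprox (Z.subtypeL.comp P) := fun Q hQ ε hε => by
      obtain ⟨K, hK, hK'⟩ := hZ' _ (hQ.image P.continuous) ε hε
      exact ⟨Z.subtypeL.comp (K.comp P), (hK.comp_clm P).clm_comp Z.subtypeL,
        fun x hx => hK' _ ⟨x, hx, rfl⟩⟩
    have h2 := ((compact_of_approx hA h1).comp_clm Z.subtypeL).clm_comp P
    refine hZ ((isCompactOperator_id_iff_finiteDimensional (𝕜 := ℝ)).1 ?_)
    have h3 : (P ∘ (Z.subtypeL.comp P) ∘ Z.subtypeL : Z → Z) = id := by
      funext z
      simp [hP]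
    rwa [h3] at h2
  · exact h (compact_of_approx hA h')

end Pool.Agent.Results.MP_43cf21_an.NoIsometry
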