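import Pool.Agent.FS.RangeApprox.Main

set_option autoImplicit false

namespace Pool.Agent.Variants.MP_43cf21_an.RangeApprox

open Pool.Agent.Lib.MP_43cf21_an

/-- An isometry `T` that agrees on an infinite-dimensional subspace with an operator `S` that is
approximated on finite sets by uniformly bounded compact operators does not have the
Bhatia-Semrl property. -/
theorem result (X Y : Type*) [NormedAddCommGroup X] [NormedSpace ℝ X] [CompleteSpace X]
    [NormedAddCommGroup Y] [NormedSpace ℝ Y] [CompleteSpace Y]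
    (T : X →L[ℝ] Y) (hT : ∀ x, ‖T x‖ = ‖x‖)
    (E : Submodule ℝ X) (hE : ¬ FiniteDimensional ℝ E)
    (S : X →L[ℝ] Y) (hS : ∀ x ∈ E, S x = T x) (M : ℝ)
    (h : ∀ F : Set X, F.Finite → ∀ ε : ℝ, 0 < ε →
      ∃ K : X →L[ℝ] Y, IsCompactOperator K ∧ ‖K‖ ≤ M ∧ ∀ x ∈ F, ‖K x - S x‖ ≤ ε) :
    ¬ BhatiaSemrl T :=
  Pool.Agent.FS.RangeApprox.not_BS E hE T hT S hS h

end Pool.Agent.Variants.MP_43cf21_an.RangeApprox
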